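import Pool.Agent.H75.ERG.Targets

/-!
# The oscillation tends to zero in the mean (row C_OML)
-/

set_option autoImplicit false

namespace Pool.Agent.H98.EG

open MeasureTheory Set Metric Filter Topology Pool.Agent.H93.BL
open Pool.Agent.H93.EN (av md rf chi gchi Bd Ml Nl Inv Agr sg VV Chart LS Phi)
open Pool.Agent.H93.EG (InvG Sm gN hN nrm)
open Pool.Agent.H75.ERG

theorem oml_point {ι : Type} (P : Polygon ι) (F : ℂ → ℂ → ℝ) (hF : InvG P F) (w : ℂ) :
    ∀ᵐ x : ℂ, x ∈ P.Ω → Tendsto (fun δ : ℝ => om P F δ x w) (𝓝[>] 0) (𝓝 0) := by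
  have hm : Measurable (fun y => F y w) := hF.meas.comp (measurable_id.prodMk measurable_const)
  have hloc : LocallyIntegrable (fun y => F y w) (volume : Measure ℂ) := by
    refine (locallyIntegrable_const (1 : ℝ)).mono hm.aestronglyMeasurable ?_
    refine Eventually.of_forall (fun y => ?_)
    rw [Real.norm_eq_abs, norm_one, abs_of_nonneg (hF.bd y w).1]
    exact (hF.bd y w).2
  have h1 := IsUnifLocDoublingMeasure.ae_tendsto_average_norm_sub (μ := (volume : Measure ℂ)) hloc 1
  filter_upwards [h1] with x hx hxΩ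
  have hne : (P.Ωᶜ).Nonempty := by
    by_contra hc
    rw [not_nonempty_iff_eq_empty, compl_empty_iff] at hc
    have hb := P.isBounded
    rw [hc] at hb
    exact NormedSpace.unbounded_univ ℝ ℂ hb
  have hpos : 0 < infDist x (P.Ωᶜ) := by
    have hcl : IsClosed (P.Ωᶜ) := P.isOpen.isClosed_compl
    have h2 := (hcl.notMem_iff_infDist_pos hne (x := x)).1
    exact h2 (fun h => h hxΩ)
  have h3 := hx (fun _ : ℝ => x) (fun δ : ℝ => δ) tendsto_id (by
    filter_upwards [self_mem_nhdsWithin] with δ hδ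
    have hδ' : (0 : ℝ) < δ := hδ
    rw [one_mul]
    exact mem_closedBall_self hδ'.le)
  have h4 : Tendsto (fun δ : ℝ => Real.pi * ⨍ y in closedBall x δ, ‖F y w - F x w‖) (𝓝[>] 0)
      (𝓝 0) := by
    have := h3.const_mul Real.pi
    rwa [mul_zero] at this
  refine h4.congr' ?_
  have h5 : ∀ᶠ δ : ℝ in 𝓝[>] 0, δ < infDist x (P.Ωᶜ) :=
    mem_nhdsWithin_of_mem_nhds (Iio_mem_nhds hpos)
  filter_upwards [h5, self_mem_nhdsWithin] with δ hδ1 hδ2
  have hδ : (0 : ℝ) < δ := hδ2
  unfold om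
  rw [if_neg (not_le.2 hδ1)]
  have e1 : ∫ y in ball x δ, |F y w - F x w| = ∫ y in closedBall x δ, ‖F y w - F x w‖ := by
    refine setIntegral_congr_set ?_
    refine (ae_eq_of_subset_of_measure_ge ball_subset_closedBall ?_
      measurableSet_ball.nullMeasurableSet ?_)
    · rw [Measure.addHaar_closedBall_eq_addHaar_ball]
    · exact measure_closedBall_lt_top.ne
  rw [e1, setAverage_eq]
  have e2 : volume.real (closedBall x δ) = δ ^ 2 * Real.pi := by
    rw [Measure.real, Complex.volume_closedBall]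
    simp [ENNReal.toReal_ofReal hδ.le]
  rw [e2, smul_eq_mul, mul_inv]
  have hpi := Real.pi_pos
  field_simp

theorem om_meas_aux : Measurable (fun z : ℂ × ℝ => (z.1, Complex.exp ((z.2 : ℂ) * Complex.I))) := by
  refine measurable_fst.prodMk ?_
  exact Complex.measurable_exp.comp ((Complex.measurable_ofReal.comp measurable_snd).mul_const _)

theorem om_meas (g : ℂ → ℂ → ℝ) (h : Measurable (Function.uncurry g)) :
    Measurable (fun z : ℂ × ℝ => g z.1 (Complex.exp ((z.2 : ℂ) * Complex.I))) := by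
  have e : (fun z : ℂ × ℝ => g z.1 (Complex.exp ((z.2 : ℂ) * Complex.I))) =
      Function.uncurry g ∘ fun z : ℂ × ℝ => (z.1, Complex.exp ((z.2 : ℂ) * Complex.I)) := rfl
  rw [e]
  exact h.comp om_meas_aux

theorem oml (h1 : T_OMM) : T_OML := by
  intro ι P F hF ε hε
  have hvol : volume P.Ω < ⊤ := P.isBounded.measure_lt_top
  have hmeasΩ : MeasurableSet P.Ω := P.isOpen.measurableSet
  have : IsFiniteMeasure (volume.restrict P.Ω) := ⟨by rwa [Measure.restrict_apply_univ]⟩
  have : IsFiniteMeasure (volume.restrict (Ioc (0 : ℝ) (2 * Real.pi))) :=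
    ⟨by rw [Measure.restrict_apply_univ]; exact measure_Ioc_lt_top⟩
  have hpi := Real.pi_pos
  -- the inner integrals
  have hI : ∀ w : ℂ, Tendsto (fun δ : ℝ => ∫ x in P.Ω, om P F δ x w) (𝓝[>] 0) (𝓝 0) := by
    intro w
    have h0 : Tendsto (fun δ : ℝ => ∫ x in P.Ω, om P F δ x w) (𝓝[>] 0)
        (𝓝 (∫ x in P.Ω, (0 : ℝ))) := by
      refine tendsto_integral_filter_of_dominated_convergence (fun _ => (4 : ℝ)) ?_ ?_
        (integrable_const _) ?_
      · filter_upwards [self_mem_nhdsWithin] with δ hδ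
        have h2 := (h1 ι P F hF δ hδ).1
        exact (h2.comp (measurable_id.prodMk measurable_const)).aestronglyMeasurable
      · filter_upwards [self_mem_nhdsWithin] with δ hδ
        refine Eventually.of_forall (fun x => ?_)
        have h2 := (h1 ι P F hF δ hδ).2 x w
        rw [Real.norm_eq_abs, abs_of_nonneg h2.1]
        exact h2.2
      · exact (ae_restrict_iff' hmeasΩ).2 (oml_point P F hF w)
    simpa using h0
  have hO : Tendsto (fun δ : ℝ => ∫ θ in Ioc (0 : ℝ) (2 * Real.pi), ∫ x in P.Ω,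
      om P F δ x (Complex.exp ((θ : ℂ) * Complex.I))) (𝓝[>] 0) (𝓝 0) := by
    have h0 : Tendsto (fun δ : ℝ => ∫ θ in Ioc (0 : ℝ) (2 * Real.pi), ∫ x in P.Ω,
        om P F δ x (Complex.exp ((θ : ℂ) * Complex.I))) (𝓝[>] 0)
        (𝓝 (∫ θ in Ioc (0 : ℝ) (2 * Real.pi), (0 : ℝ))) := by
      refine tendsto_integral_filter_of_dominated_convergence
        (fun _ => 4 * volume.real P.Ω) ?_ ?_ (integrable_const _) ?_
      · filter_upwards [self_mem_nhdsWithin] with δ hδ
        have h2 := om_meas _ (h1 ι P F hF δ hδ).1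
        have h3 : StronglyMeasurable (fun z : ℝ × ℂ =>
            om P F δ z.2 (Complex.exp ((z.1 : ℂ) * Complex.I))) :=
          (h2.comp measurable_swap).stronglyMeasurable
        exact (h3.integral_prod_right' (ν := volume.restrict P.Ω)).aestronglyMeasurable
      · filter_upwards [self_mem_nhdsWithin] with δ hδ
        refine Eventually.of_forall (fun θ => ?_)
        have h2 : ∀ x, ‖om P F δ x (Complex.exp ((θ : ℂ) * Complex.I))‖ ≤ 4 := by
          intro x
          have h2 := (h1 ι P F hF δ hδ).2 x (Complex.exp ((θ : ℂ) * Complex.I))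
          rw [Real.norm_eq_abs, abs_of_nonneg h2.1]
          exact h2.2
        have h3 := norm_setIntegral_le_of_norm_le_const (μ := volume) (s := P.Ω) (C := 4)
          (f := fun x => om P F δ x (Complex.exp ((θ : ℂ) * Complex.I))) hvol (fun x _ => h2 x)
        exact h3
      · exact Eventually.of_forall (fun θ => hI _)
    simpa using h0
  have hJ : ∀ δ : ℝ, 0 < δ → ∫ x in P.Ω, av (om P F δ x) = (2 * Real.pi)⁻¹ *
      ∫ θ in Ioc (0 : ℝ) (2 * Real.pi), ∫ x in P.Ω,
        om P F δ x (Complex.exp ((θ : ℂ) * Complex.I)) := by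
    intro δ hδ
    have e1 : ∀ x, av (om P F δ x) = (2 * Real.pi)⁻¹ *
        ∫ θ in Ioc (0 : ℝ) (2 * Real.pi), om P F δ x (Complex.exp ((θ : ℂ) * Complex.I)) := by
      intro x
      unfold av
      rw [intervalIntegral.integral_of_le (by positivity)]
    simp_rw [e1]
    rw [integral_const_mul]
    congr 1
    refine integral_integral_swap
      (f := fun (x : ℂ) (θ : ℝ) => om P F δ x (Complex.exp ((θ : ℂ) * Complex.I))) ?_
    refine Integrable.mono' (g := fun _ => (4 : ℝ)) (integrable_const _)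
      (om_meas _ (h1 ι P F hF δ hδ).1).aestronglyMeasurable (Eventually.of_forall (fun z => ?_))
    have h2 := (h1 ι P F hF δ hδ).2 z.1 (Complex.exp ((z.2 : ℂ) * Complex.I))
    change ‖om P F δ z.1 (Complex.exp ((z.2 : ℂ) * Complex.I))‖ ≤ 4
    rw [Real.norm_eq_abs, abs_of_nonneg h2.1]
    exact h2.2
  have hT : Tendsto (fun δ : ℝ => (2 * Real.pi)⁻¹ * ∫ θ in Ioc (0 : ℝ) (2 * Real.pi),
      ∫ x in P.Ω, om P F δ x (Complex.exp ((θ : ℂ) * Complex.I))) (𝓝[>] 0) (𝓝 0) := by
    have := hO.const_mul (2 * Real.pi)⁻¹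
    rwa [mul_zero] at this
  have hev := hT.eventually (ge_mem_nhds hε : ∀ᶠ y in 𝓝 (0 : ℝ), y ≤ ε)
  rw [eventually_nhdsWithin_iff] at hev
  obtain ⟨δ₀, hδ₀, hball⟩ := Metric.eventually_nhds_iff.1 hev
  refine ⟨δ₀, hδ₀, fun δ hδ => ?_⟩
  rw [hJ δ hδ.1]
  refine hball ?_ hδ.1
  rw [Real.dist_eq, sub_zero, abs_of_pos hδ.1]
  exact hδ.2

end Pool.Agent.H98.EG
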