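import Pool.Agent.H93.EG.Targets

/-!
# Regularity of the modes (row A_AR)
-/

set_option autoImplicit false

namespace Pool.Agent.H98.EG

open MeasureTheory Set Metric Filter Topology Pool.Agent.H93.EG
open Pool.Agent.H93.BL hiding T_B1 T_B2 T_B3 T_SB T_SC
open Pool.Agent.H93.EN
open scoped ContDiff

theorem ar (h1 : T_U1) : T_AR := by
  intro ι P δ G N hδ hS k
  have key : ∀ x₀ ∈ P.Ω, ∃ Φ : ℂ → ℂ → ℝ, Bd Φ ∧ N x₀ = Nl Φ δ x₀ ∧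
      um G k =ᶠ[𝓝 x₀] fun x => md (Ml Φ δ x) k := by
    intro x₀ hx₀
    obtain ⟨s, hs, Φ, hΦ, h⟩ := hS.int x₀ hx₀
    refine ⟨Φ, hΦ, (h x₀ (mem_ball_self hs)).2.2, ?_⟩
    filter_upwards [ball_mem_nhds x₀ hs] with x hx
    change md (G x) k = md (Ml Φ δ x) k
    rw [(h x hx).2.1]
  refine ⟨?_, ?_⟩
  · intro x₀ hx₀
    obtain ⟨Φ, hΦ, -, he⟩ := key x₀ hx₀
    exact (((h1 Φ hΦ δ hδ k).1.contDiffAt).congr_of_eventuallyEq he).contDiffWithinAt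
  · intro x₀ hx₀
    obtain ⟨Φ, hΦ, hN, he⟩ := key x₀ hx₀
    obtain ⟨-, h2, h3, -⟩ := h1 Φ hΦ δ hδ k
    refine ⟨?_, ?_⟩
    · rw [he.fderiv_eq, h2 x₀]
      change _ = md (fun w => (N x₀ w).re) k
      rw [hN]
    · rw [he.fderiv_eq, h3 x₀]
      change _ = md (fun w => (N x₀ w).im) k
      rw [hN]

end Pool.Agent.H98.EG
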